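import Mathlib

set_option autoImplicit false

open UpperHalfPlane MeasureTheory Laplacian
open scoped MatrixGroups ContDiff

namespace Pool.Agent.MP_4f0ed6_gt.U

noncomputable section

/-- a function on the upper half-plane read in the plane -/
def lift (u : ℍ → ℝ) : ℂ → ℝ := fun w => u (ofComplex w)

/-- smooth functions on the upper half-plane -/
def Sm (u : ℍ → ℝ) : Prop := ContDiffOn ℝ ∞ (lift u) {w : ℂ | 0 < w.im}

/-- functions invariant under the group -/
def Inv (Γ : Subgroup SL(2, ℝ)) (u : ℍ → ℝ) : Prop := ∀ γ ∈ Γ, ∀ z : ℍ, u (γ • z) = u z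

/-- hyperbolic inner product of the gradients -/
def en (u v : ℍ → ℝ) (z : ℍ) : ℝ :=
  z.im ^ 2 * (fderiv ℝ (lift u) z 1 * fderiv ℝ (lift v) z 1
    + fderiv ℝ (lift u) z Complex.I * fderiv ℝ (lift v) z Complex.I)

/-- the nonnegative hyperbolic Laplacian -/
def lap (u : ℍ → ℝ) (z : ℍ) : ℝ := -(z.im ^ 2 * Δ (lift u) z)

/-- the quotient of the upper half-plane by `Γ` is a closed hyperbolic surface and `F` is a
compact fundamental domain -/
structure Closed (Γ : Subgroup SL(2, ℝ)) (F : Set ℍ) : Prop where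
  disc : DiscreteTopology Γ
  hyp : ∀ γ ∈ Γ, γ ≠ 1 → 2 < |γ.1.trace|
  cpt : IsCompact F
  cov : ∀ z : ℍ, ∃ γ ∈ Γ, γ • z ∈ F
  fund : IsFundamentalDomain Γ F volume

end

end Pool.Agent.MP_4f0ed6_gt.U
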